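import Mathlib

set_option autoImplicit false

namespace Pool.Agent.Results.MP_2c58b6_co.Counter

open Finset Matrix

open Classical in
noncomputable def lap {n : ℕ} (E : Fin n → Fin n → Prop) : Matrix (Fin n) (Fin n) ℝ :=
  diagonal (fun i => (#{j | E i j} : ℝ)) - of fun i j => if E i j then 1 else 0

noncomputable def alpha {n : ℕ} (E : Fin n → Fin n → Prop) : ℝ :=
  sInf {w | ∃ x : Fin n → ℝ, ∑ i, x i = 0 ∧ ∑ i, x i ^ 2 = 1 ∧ w = x ⬝ᵥ lap E *ᵥ x}

theorem test {n : ℕ} (E : Fin n → Fin n → Prop) [DecidableRel E] (u : Fin n → ℤ) (a b : ℤ)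
    (h0 : ∑ i, u i = 0) (h1 : ∑ i, u i ^ 2 = b) (hb : 0 < b)
    (h2 : ∑ i, ∑ j, (if E i j then u i * (u i - u j) else 0) = a) : alpha E ≤ a / b := by
  have b0 : (0 : ℝ) < b := by exact_mod_cast hb
  have s := Real.sq_sqrt b0.le
  have s0 := (Real.sqrt_pos.2 b0).ne'
  refine csInf_le ⟨-∑ i, ∑ j, |lap E i j|, ?_⟩ ⟨fun i => u i / √b, ?_, ?_, ?_⟩
  · rintro _ ⟨x, -, hx, rfl⟩
    have k : ∀ i, |x i| ≤ 1 := fun i => (sq_le_one_iff_abs_le_one _).1
      (hx ▸ single_le_sum (f := fun i => x i ^ 2) (fun _ _ => sq_nonneg _) (mem_univ i))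
    simp only [dotProduct, mulVec, mul_sum, ← sum_neg_distrib]
    refine sum_le_sum fun i _ => sum_le_sum fun j _ => neg_le_of_abs_le ?_
    rw [abs_mul, abs_mul]
    exact (mul_le_of_le_one_left (by positivity) (k i)).trans
      (mul_le_of_le_one_right (abs_nonneg _) (k j))
  · rw [← sum_div, div_eq_zero_iff]
    exact .inl (by exact_mod_cast h0)
  · simp only [div_pow, ← sum_div, s]
    rw [div_eq_one_iff_eq b0.ne']
    exact_mod_cast h1
  · rw [← h2, lap, sub_mulVec, dotProduct]
    push_cast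
    rw [sum_div]
    refine sum_congr rfl fun i _ => ?_
    simp only [Pi.sub_apply, mulVec_diagonal, card_filter]
    simp only [mulVec, dotProduct, of_apply]
    push_cast
    rw [sum_mul, ← sum_sub_distrib, mul_sum, sum_div]
    refine sum_congr rfl fun j _ => ?_
    by_cases h : E i j
    · simp only [h, if_true]
      field_simp
      rw [s]
    · simp [h]

def E (i j : Fin 10) : Prop :=
  ([390, 932, 913, 320, 416, 902, 256, 575, 703, 419].getD i 0).testBit j

instance : DecidableRel E := fun _ _ => inferInstanceAs (Decidable (_ = true))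

open Classical in
theorem result : ∃ (n : ℕ) (E : Fin n → Fin n → Prop), 2 ≤ n ∧ (∀ i, ¬ E i i) ∧
    (∀ i, #{j | E i j} = #{j | E j i}) ∧ ∃ x y : ℝ, x = alpha E ∧
      y = alpha (fun i j => i ≠ j ∧ ¬ E i j) ∧ x ≤ 1 ∧ y ≤ 1 ∧
      x * y * (2 - x * y) < n * (1 - x) * (1 - y) * (n - 2 - x - y) := by
  have hx := test E ![-4, -4, -4, 7, -4, -4, 22, -4, -1, -4] 560 646 (by decide) (by decide)
    (by decide) (by decide +kernel)
  have hy := test (fun i j => i ≠ j ∧ ¬ E i j) ![-4, -4, -4, -4, -4, -4, -1, 7, 22, -4] 560 646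
    (by decide) (by decide) (by decide) (by decide +kernel)
  have hb : ∀ i, #{j | E i j} = #{j | E j i} := by decide +kernel
  refine ⟨10, E, by decide, by decide, fun i => ?_, _, _, rfl, rfl, ?_⟩
  · exact (congrArg card (filter_congr_decidable _ _ _)).trans
      ((hb i).trans (congrArg card (filter_congr_decidable _ _ _)).symm)
  generalize alpha E = x at hx
  generalize alpha _ = y at hy
  push_cast at hx hy ⊢
  refine ⟨by linarith, by linarith, ?_⟩
  have a : (10 * (13 / 100) * (13 / 100) * (626 / 100) : ℝ) ≤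
      10 * (1 - x) * (1 - y) * (10 - 2 - x - y) := by
    have p : 0 ≤ 1 - x := by linarith
    have q : 0 ≤ 1 - y := by linarith
    gcongr <;> linarith
  nlinarith [sq_nonneg (x * y - 1)]

end Pool.Agent.Results.MP_2c58b6_co.Counter
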